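import Pool.Agent.H623R3.SW.Main

set_option autoImplicit false

namespace Pool.Agent.Results.MP_e1b2c2_nt.SwisherDwork

open Finset

/-- The truncated sum `S(m)` of the problem: the sum over `0 ≤ k ≤ (m-1)/2` of
`(-1)^k (4k+1) (1/2)_k^5 / k!^5`, a rational number. The rising factorial `(1/2)_k` is
the value at `1/2` of Mathlib's `ascPochhammer`. -/
noncomputable def S (m : ℕ) : ℚ :=
  ∑ k ∈ range ((m - 1) / 2 + 1),
    (-1) ^ k * (4 * (k : ℚ) + 1) * ((ascPochhammer ℚ k).eval (1 / 2)) ^ 5 / (k.factorial : ℚ) ^ 5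

/-- `G` is Morita's `p`-adic gamma function: a continuous function on `ℤ_[p]` whose value at a
positive integer `n` is `(-1)^n` times the product of the integers `0 < j < n` prime to `p`. -/
def IsMoritaGamma (p : ℕ) [Fact p.Prime] (G : ℤ_[p] → ℤ_[p]) : Prop :=
  Continuous G ∧ ∀ n : ℕ, 1 ≤ n →
    G n = (-1) ^ n * ∏ j ∈ (Ioo 0 n).filter (fun j => ¬ p ∣ j), (j : ℤ_[p])

/-- Swisher's Dwork-type supercongruence for primes `p` congruent to `1` modulo `4`, for every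
`r ≥ 1` (and also for `p = 5`). Morita's gamma function exists, is unique, and with `q = 1/4` in
`ℤ_[p]` the number `S(p^r) + p Γ(q)^4 S(p^(r-1))` lies in `p^(5r) ℤ_[p]`. -/
theorem result :
    ∀ (p : ℕ) [Fact p.Prime], p % 4 = 1 →
      ∃ G : ℤ_[p] → ℤ_[p], IsMoritaGamma p G ∧ (∀ G', IsMoritaGamma p G' → G' = G) ∧
        ∃ q : ℤ_[p], 4 * q = 1 ∧ ∀ r : ℕ, 1 ≤ r →
          ∃ z : ℤ_[p], ((S (p ^ r) : ℚ) : ℚ_[p]) +
            (p : ℚ_[p]) * ((G q : ℤ_[p]) : ℚ_[p]) ^ 4 * ((S (p ^ (r - 1)) : ℚ) : ℚ_[p]) =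
            (p : ℚ_[p]) ^ (5 * r) * (z : ℚ_[p]) := by
  intro p hp hp4
  obtain ⟨G, hG⟩ := H623R3.SW.exists_morita (p := p) (by omega)
  have hu : IsUnit (((4 : ℕ) : ℤ_[p])) := by
    apply H623R3.SW.isUnit_natCast
    intro h
    have h5 : p ∣ 2 ^ 2 := by simpa using h
    have h7 := (Nat.prime_dvd_prime_iff_eq hp.out Nat.prime_two).mp (hp.out.dvd_of_dvd_pow h5)
    omega
  obtain ⟨u, hu'⟩ := hu
  refine ⟨G, hG, fun G' hG' => H623R3.SW.morita_unique hG' hG,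
    ((u⁻¹ : ℤ_[p]ˣ) : ℤ_[p]), ?_, fun r hr => ?_⟩
  · have h4 : (4 : ℤ_[p]) = (u : ℤ_[p]) := by rw [hu']; norm_num
    rw [h4, Units.mul_inv]
  · have h4 : (4 : ℤ_[p]) * ((u⁻¹ : ℤ_[p]ˣ) : ℤ_[p]) = 1 := by
      have h4 : (4 : ℤ_[p]) = (u : ℤ_[p]) := by rw [hu']; norm_num
      rw [h4, Units.mul_inv]
    have hodd : p ^ (r - 1) % 2 = 1 := by
      rw [Nat.pow_mod, show p % 2 = 1 by omega, one_pow]
      norm_num
    obtain ⟨z, hz⟩ := H623R3.SW.main_odd hp4 hG _ h4 (p ^ (r - 1)) hodd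
    refine ⟨z, ?_⟩
    have e1 : p * p ^ (r - 1) = p ^ r := by
      rw [← pow_succ']
      congr 1
      omega
    have e2 : ((p : ℚ_[p]) * ((p ^ (r - 1) : ℕ) : ℚ_[p])) ^ 5 = (p : ℚ_[p]) ^ (5 * r) := by
      rw [← Nat.cast_mul, e1]
      push_cast
      rw [← pow_mul, mul_comm r 5]
    rw [e1, e2] at hz
    exact hz

end Pool.Agent.Results.MP_e1b2c2_nt.SwisherDwork
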